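import Pool.Agent.ASD.Stmts8
import Pool.Agent.Helper23_AT2.TES
import Pool.Agent.Helper20_PP.Rst

/-!
# Squad ASD, row L4D: the numbers of modular characters of four groups
-/

open scoped BigOperators

set_option autoImplicit false

noncomputable section

namespace Pool.Agent.PP.SD.H31

open Pool.Agent.Helper51_AWC Pool.Agent.Helper79_WRA Pool.Agent.PP Pool.Agent.PP.KF
open Pool.Agent.PP.K9 Pool.Agent.PP.K9.H97 Pool.Agent.PP.H75 Pool.Agent.PP.T3 Pool.Agent.PP.SO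

attribute [local instance] Ideal.Quotient.field

section gen

variable {V₀ G : Type} [CommGroup V₀] [Group G]

theorem es_one (E₀ : Subgroup (MulAut V₀)) : Nat.card (Es E₀ (1 : V₀)) = Nat.card E₀ := by
  have h : Es E₀ (1 : V₀) = E₀ := by
    ext σ
    constructor
    · intro hσ
      exact hσ.1
    · intro hσ
      exact ⟨hσ, map_one σ⟩
  rw [h]

theorem ln_top {F : Type} [Field F] [Finite G] (e b : G → F) (he : IsBlk e) (X : Subgroup G)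
    (hX : X = ⊤) (hb : Bx X b) (hu : mulF (fun t : X => e t) (fun t : X => b t) =
      fun t : X => b t) : ln (fun t : X => b t) = ln e := by
  subst hX
  have he' : IsBlk (fun t : (⊤ : Subgroup G) => e t) := H20.IsBlk_equiv Subgroup.topEquiv he
  have h1 : (fun t : (⊤ : Subgroup G) => b t) = fun t : (⊤ : Subgroup G) => e t := by
    rcases he'.2.2 _ hb.blk.1 with h | h
    · exact hu.symm.trans h
    · exact absurd (hu.symm.trans h) hb.blk.2.1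
  rw [h1]
  exact T2.H23.ln_eq e

variable {ℓ : ℕ} {M : Ideal (integralClosure ℤ ℂ)} [M.IsMaximal]

theorem c_bot {F : Type} (B : Bk F V₀ G) : B.C ⊥ = ⊤ := by
  unfold Bk.C
  rw [Subgroup.map_bot, eq_top_iff]
  intro x _
  rw [Subgroup.mem_centralizer_iff]
  intro y hy
  have : y = 1 := Subgroup.mem_bot.1 hy
  rw [this, one_mul, mul_one]

theorem ln_bot [Finite G] {E₀ : Subgroup (MulAut V₀)} {B : Bk (FF M) V₀ G} (hB : Sb ℓ M E₀ B) :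
    ln (fun t : B.C ⊥ => B.b ⊥ t) = ln B.e :=
  ln_top B.e (B.b ⊥) hB.ld.blk (B.C ⊥) (c_bot B) (hB.lb ⊥).blk (hB.lb ⊥).und

end gen

/-- L4D -/
theorem l4d (kld : KldStmt) (k4b : K4bStmt) (pch : PchStmt) (dix : DixStmt) : L4dStmt := by
  intro ℓ hℓ M _ hM hl2 V₀ _ _ E₀ A₁ A₂ hD G₀ G₁ G₂ G₃ _ _ _ _ _ _ _ _ B₀ B₁ B₂ B₃ j₁ j₂ j₃ j₄
    h₀ h₁ h₂ h₃ p₁ p₂ p₃ p₄
  have hk := k4b ℓ M hM hl2 V₀ E₀ A₁ A₂ hD G₀ G₁ G₂ G₃ B₀ B₁ B₂ B₃ j₁ j₂ j₃ j₄ h₀ h₁ h₂ h₃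
    p₁ p₂ p₃ p₄
  obtain ⟨d1, ⟨hA1, hA2, -, -, -, m1, m2⟩, -⟩ := dix ℓ V₀ E₀ A₁ A₂ hD
  obtain ⟨e₀, o₀⟩ := kld ℓ M hM hl2 V₀ G₀ E₀ hD.toFq B₀ h₀.toSb
  obtain ⟨e₁, o₁⟩ := kld ℓ M hM hl2 V₀ G₁ E₀ hD.toFq B₁ h₁.toSb
  obtain ⟨e₂, o₂⟩ := kld ℓ M hM hl2 V₀ G₂ E₀ hD.toFq B₂ h₂.toSb
  obtain ⟨e₃, o₃⟩ := kld ℓ M hM hl2 V₀ G₃ E₀ hD.toFq B₃ h₃.toSb
  have q₁ := fun W hW => (pch ℓ M hM hl2 V₀ G₀ G₁ E₀ A₁ B₀ B₁ j₁ h₀.toSb h₁.toSb p₁ W hW).2.2.2.2.2.2.2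
  have q₂ := fun W hW => (pch ℓ M hM hl2 V₀ G₀ G₂ E₀ A₂ B₀ B₂ j₂ h₀.toSb h₂.toSb p₂ W hW).2.2.2.2.2.2.2
  have q₃ := fun W hW => (pch ℓ M hM hl2 V₀ G₂ G₃ E₀ A₁ B₂ B₃ j₃ h₂.toSb h₃.toSb p₃ W hW).2.2.2.2.2.2.2
  have q₄ := fun W hW => (pch ℓ M hM hl2 V₀ G₁ G₃ E₀ A₂ B₁ B₃ j₄ h₁.toSb h₃.toSb p₄ W hW).2.2.2.2.2.2.2
  have b₀ := ln_bot h₀.toSb
  have b₁ := ln_bot h₁.toSb
  have b₂ := ln_bot h₂.toSb
  have b₃ := ln_bot h₃.toSb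
  obtain ⟨T₀, hT₀⟩ : ∃ T : Subgroup V₀ → ℕ, T = fun W => ln (fun t : B₀.C W => B₀.b W t) :=
    ⟨_, rfl⟩
  obtain ⟨T₁, hT₁⟩ : ∃ T : Subgroup V₀ → ℕ, T = fun W => ln (fun t : B₁.C W => B₁.b W t) :=
    ⟨_, rfl⟩
  obtain ⟨T₂, hT₂⟩ : ∃ T : Subgroup V₀ → ℕ, T = fun W => ln (fun t : B₂.C W => B₂.b W t) :=
    ⟨_, rfl⟩
  obtain ⟨T₃, hT₃⟩ : ∃ T : Subgroup V₀ → ℕ, T = fun W => ln (fun t : B₃.C W => B₃.b W t) :=
    ⟨_, rfl⟩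
  have s₀ : ∀ W, ln (fun t : B₀.C W => B₀.b W t) = T₀ W := fun W => by rw [hT₀]
  have s₁ : ∀ W, ln (fun t : B₁.C W => B₁.b W t) = T₁ W := fun W => by rw [hT₁]
  have s₂ : ∀ W, ln (fun t : B₂.C W => B₂.b W t) = T₂ W := fun W => by rw [hT₂]
  have s₃ : ∀ W, ln (fun t : B₃.C W => B₃.b W t) = T₃ W := fun W => by rw [hT₃]
  simp only [s₀] at e₀ o₀ q₁ q₂ b₀
  simp only [s₁] at e₁ o₁ q₁ q₄ b₁
  simp only [s₂] at e₂ o₂ q₂ q₃ b₂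
  simp only [s₃] at e₃ o₃ q₃ q₄ b₃
  have : Fintype V₀ := Fintype.ofFinite V₀
  rw [finsum_eq_sum_of_fintype] at e₀ e₁ e₂ e₃
  have hfin : Finite E₀ := inferInstance
  have hE : (Nat.card E₀ : ℤ) ≠ 0 := by
    have : 0 < Nat.card E₀ := Nat.card_pos
    exact_mod_cast this.ne'
  have z₀ : (Nat.card E₀ : ℤ) * ((IrrE M B₀.e).ncard : ℤ) =
      ∑ v : V₀, (Nat.card (Es E₀ v) : ℤ) * (T₀ (Subgroup.zpowers v) : ℤ) := by exact_mod_cast e₀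
  have z₁ : (Nat.card E₀ : ℤ) * ((IrrE M B₁.e).ncard : ℤ) =
      ∑ v : V₀, (Nat.card (Es E₀ v) : ℤ) * (T₁ (Subgroup.zpowers v) : ℤ) := by exact_mod_cast e₁
  have z₂ : (Nat.card E₀ : ℤ) * ((IrrE M B₂.e).ncard : ℤ) =
      ∑ v : V₀, (Nat.card (Es E₀ v) : ℤ) * (T₂ (Subgroup.zpowers v) : ℤ) := by exact_mod_cast e₂
  have z₃ : (Nat.card E₀ : ℤ) * ((IrrE M B₃.e).ncard : ℤ) =
      ∑ v : V₀, (Nat.card (Es E₀ v) : ℤ) * (T₃ (Subgroup.zpowers v) : ℤ) := by exact_mod_cast e₃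
  have key : ∀ v : V₀, v ≠ 1 → (T₀ (Subgroup.zpowers v) : ℤ) - T₁ (Subgroup.zpowers v) -
      T₂ (Subgroup.zpowers v) + T₃ (Subgroup.zpowers v) = 0 := by
    intro v hv
    have hne : Subgroup.zpowers v ≠ ⊥ := fun h => hv (Subgroup.zpowers_eq_bot.1 h)
    by_cases w1 : Subgroup.zpowers v = A₁
    · have r1 := q₁ (Subgroup.zpowers v) w1.ge
      have r3 := q₃ (Subgroup.zpowers v) w1.ge
      rw [r1, r3]
      ring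
    · by_cases w2 : Subgroup.zpowers v = A₂
      · have r2 := q₂ (Subgroup.zpowers v) w2.ge
        have r4 := q₄ (Subgroup.zpowers v) w2.ge
        rw [r2, r4]
        ring
      · have hR := d1 (Subgroup.zpowers v) ⟨hne, w1, w2⟩
        rw [o₀ _ hR, o₁ _ hR, o₂ _ hR, o₃ _ hR]
        norm_num
  have main : (Nat.card E₀ : ℤ) * (((IrrE M B₀.e).ncard : ℤ) - (IrrE M B₁.e).ncard -
      (IrrE M B₂.e).ncard + (IrrE M B₃.e).ncard) =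
      (Nat.card E₀ : ℤ) * ((ln B₀.e : ℤ) - ln B₁.e - ln B₂.e + ln B₃.e) := by
    have h1 : (Nat.card E₀ : ℤ) * (((IrrE M B₀.e).ncard : ℤ) - (IrrE M B₁.e).ncard -
        (IrrE M B₂.e).ncard + (IrrE M B₃.e).ncard) =
        ∑ v : V₀, (Nat.card (Es E₀ v) : ℤ) * ((T₀ (Subgroup.zpowers v) : ℤ) -
          T₁ (Subgroup.zpowers v) - T₂ (Subgroup.zpowers v) + T₃ (Subgroup.zpowers v)) := by
      simp only [mul_sub, mul_add, Finset.sum_add_distrib, Finset.sum_sub_distrib]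
      rw [z₀, z₁, z₂, z₃]
    rw [h1, Finset.sum_eq_single (1 : V₀)]
    · rw [es_one, Subgroup.zpowers_one_eq_bot, b₀, b₁, b₂, b₃]
    · intro v _ hv
      rw [key v hv, mul_zero]
    · intro h
      exact absurd (Finset.mem_univ _) h
  rw [← mul_left_cancel₀ hE main]
  exact hk

end Pool.Agent.PP.SD.H31
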